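import Pool.Agent.R838.CR.AllR
import Pool.Agent.R838.TW.Form

/-!
# The heat flow of the L-functions of elliptic curves over abelian number fields

Let `E` be an elliptic curve over `ℚ` of conductor `N`, `K` an abelian number field of conductor prime to `N` (given by
its group `G` of Dirichlet characters, `[K : ℚ] = card G`), `Λ(s) = Λ(E/K, s)` the completed L-function of `E` over `K`,
and `Λ_t = exp (t D²) Λ`, `D = d/ds`, its heat flow. If all zeros of `Λ_t` are on the line `Re s = 1`, the same is true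
for all larger `t`, and it is true for `t ≥ 1/8` (de Bruijn); the Riemann hypothesis for `L(E/K, s)` says that it is true
for all `t > 0`. The mean distance of the zeros at height `y` is `π / ([K : ℚ] log y)`.

We prove unconditionally, for every `E`, `K` and all `ε > 0`, `A`: there are constants `c, C > 0` such that for
`0 < t ≤ 1/8` and `T ≥ 2` at most the proportion `C exp (-c t log² T)` of the zeros of `Λ_t` with imaginary part in
`(T, 2T]` are off the line `Re s = 1`, or multiple, or, if `t log T ≤ A`, not followed by a simple zero on the line at the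
distance `(1 + O(ε)) π / ([K : ℚ] log y)`, with no zeros in between. So almost all zeros are simple, on the line and form
a lattice as soon as `t` is large compared with `1 / log² T`. (That there are no zeros off the line at height `T` was
only known for `t` larger than a multiple of `1 / log T`.)

For `[K : ℚ] > 1` the function `Λ_t` is not a product, although `Λ` is one; the zeros of `Λ` are the union of those of
`[K : ℚ]` functions and should be much less regular than those of one of them. The proof is multiplicative as in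
the starting file `DerivativesDensityAbelian` (modules `Pool.Agent.Y693`): outside of a set of heights of proportion
`exp (-c a)` all factors of `Λ` look at the scale `a / log T` like their main terms (mollified second moments near the
line, shifted convolution sums by Jutila's circle method; joint project `Pool.Agent.Y671` of helper671 and others). New
here are the local theorem on the heat flow for functions of arbitrary degree (modules `Pool.Agent.R838.LD`; the starting
modules had it for degree at most ten), the gaps between the zeros (`Pool.Agent.R838.CR`: on the line `Λ_t` is the real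
part of an integral over a half-line which by the saddle point method rotates with constant speed), and that the newforms
may have any weight (`Pool.Agent.R838.TW`).
-/

set_option autoImplicit false

open Complex UpperHalfPlane MatrixGroups CongruenceSubgroup
open scoped ComplexConjugate

namespace Pool.Agent.Results.MP_fb225e_nt.HeatFlowAbelian

/-! ### Elliptic curves over `ℚ` and abelian number fields -/

/-- The coefficient `a_p` of `E : y² = x³ + a x + b` at a prime `p ∤ 2 (4a³ + 27b²)`: `p` minus the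
number of pairs `(x, y)` modulo `p` with `y² ≡ x³ + a x + b (mod p)`. -/
noncomputable def ap (a b : ℤ) (p : ℕ) : ℤ :=
  (p : ℤ) - (((Finset.range p ×ˢ Finset.range p).filter
    (fun xy : ℕ × ℕ => (p : ℤ) ∣ (xy.2 : ℤ) ^ 2 -
      ((xy.1 : ℤ) ^ 3 + a * (xy.1 : ℤ) + b))).card : ℤ)

/-- The `n`-th Fourier coefficient of `f`. -/
noncomputable def coef {N : ℕ} (f : CuspForm (Gamma0 N : Subgroup (GL (Fin 2) ℝ)) 2) (n : ℕ) : ℂ :=
  (qExpansion 1 f).coeff n

/-- `f ∈ S_2(Γ₀(N))` is the newform of the elliptic curve `E : y² = x³ + a x + b` of conductor `N` and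
root number `w`: the Fourier coefficients `c(n)` of `f` are real with `c(1) = 1`, they satisfy the
Hecke relations `c(mn) = c(m) c(n)` for coprime `m`, `n` and `c(p^(j+2)) = c(p) c(p^(j+1)) - p c(p^j)`
(without the last term if `p ∣ N`), `f(-1/(Nτ)) = -w N τ² f(τ)`, `c(p) = a_p(E)` for all primes
`p ∤ 2 (4a³ + 27b²)`, `|c(p)| ≤ 2 √p` for all `p ∤ N` (Hasse) and `c(p) = 0, 1, -1` for `p ∣ N`. -/
structure IsFormOf (a b : ℤ) (N : ℕ) (f : CuspForm (Gamma0 N : Subgroup (GL (Fin 2) ℝ)) 2) (w : ℝ) :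
    Prop where
  one : coef f 1 = 1
  real : ∀ n, (coef f n).im = 0
  mul : ∀ m n : ℕ, Nat.Coprime m n → coef f (m * n) = coef f m * coef f n
  pow : ∀ p j : ℕ, p.Prime → coef f (p ^ (j + 2)) = coef f p * coef f (p ^ (j + 1)) -
      (if p ∣ N then 0 else (p : ℂ) * coef f (p ^ j))
  sign : w = 1 ∨ w = -1
  fricke : ∀ τ τ' : ℍ, (τ' : ℂ) * ((N : ℂ) * (τ : ℂ)) = -1 →
    f τ' = -(w : ℂ) * (N : ℂ) * (τ : ℂ) ^ 2 * f τ
  points : ∀ p : ℕ, p.Prime → ¬ (p : ℤ) ∣ 2 * (4 * a ^ 3 + 27 * b ^ 2) → coef f p = (ap a b p : ℂ)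
  good : ∀ p : ℕ, p.Prime → ¬ p ∣ N → ‖coef f p‖ ≤ 2 * Real.sqrt p
  bad : ∀ p : ℕ, p.Prime → p ∣ N → coef f p = 0 ∨ coef f p = 1 ∨ coef f p = -1

/-- The completed L-function of the twist of `E` by `χ` modulo `q`, for `Re s > 3/2`:
`(√N q / 2π)^s Γ(s) ∑ c(n) χ(n) n^(-s)`. -/
noncomputable def twist {N : ℕ} (f : CuspForm (Gamma0 N : Subgroup (GL (Fin 2) ℝ)) 2) {q : ℕ}
    (χ : DirichletCharacter ℂ q) (s : ℂ) : ℂ :=
  ((Real.sqrt N * q / (2 * Real.pi) : ℝ) : ℂ) ^ s * Complex.Gamma s *
    ∑' n : ℕ, coef f (n + 1) * χ ((n + 1 : ℕ) : ZMod q) * ((n + 1 : ℕ) : ℂ) ^ (-s)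

/-- `Λ = Λ(E/K, s)`, where `K` is the abelian number field with the group `G` of Dirichlet
characters: `Λ` is entire and, for `Re s > 3/2`, it is the product over `χ` in `G` of the completed
L-functions of the twists of `E` by the primitive character associated with `χ`. -/
def IsCompleted {M : ℕ} (G : Subgroup (DirichletCharacter ℂ M)) [Fintype G] {N : ℕ}
    (f : CuspForm (Gamma0 N : Subgroup (GL (Fin 2) ℝ)) 2) (Λ : ℂ → ℂ) : Prop :=
  Differentiable ℂ Λ ∧ ∀ s : ℂ, 3 / 2 < s.re →
    Λ s = ∏ χ : G, twist f (χ : DirichletCharacter ℂ M).primitiveCharacter s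

/-! ### The heat flow and its zeros -/

/-- The heat flow `Λ_t = exp (t D²) Λ` (`D = d/ds`, `t ≥ 0`) as a Gaussian average:
`Λ_t(s) = π^(-1/2) ∫ exp (-v²) Λ(s + 2 √t v) dv`. -/
noncomputable def heat (t : ℝ) (Λ : ℂ → ℂ) (s : ℂ) : ℂ :=
  ((1 / Real.sqrt Real.pi : ℝ) : ℂ) *
    ∫ v : ℝ, ((Real.exp (-v ^ 2) : ℝ) : ℂ) * Λ (s + ((2 * Real.sqrt t * v : ℝ) : ℂ))

/-- The zeros of `Λ_t` with imaginary part in `(T, 2T]`. -/
def Zer (Λ : ℂ → ℂ) (t T : ℝ) : Set ℂ := {s | heat t Λ s = 0 ∧ T < s.im ∧ s.im ≤ 2 * T}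

/-- The next zero of `Y` above `s` is simple and lies vertically above `s`, at a distance `g` with
`|g κ log (Im s) - π| ≤ ε`; and `s` and `s + i g` are the only zeros with imaginary part in `[Im s, Im s + g]`. -/
def Followed (Y : ℂ → ℂ) (κ ε : ℝ) (s : ℂ) : Prop :=
  ∃ g : ℝ, 0 < g ∧ |g * (κ * Real.log s.im) - Real.pi| ≤ ε ∧
    Y (s + g * Complex.I) = 0 ∧ deriv Y (s + g * Complex.I) ≠ 0 ∧
    ∀ z : ℂ, Y z = 0 → s.im ≤ z.im → z.im ≤ s.im + g → z = s ∨ z = s + g * Complex.I

/-- The exceptional ones: off the line `Re s = 1`, or multiple, or, if `t log T ≤ A`, not followed by a zero at the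
distance `(π + O(ε)) / (κ log (Im s))`. -/
def Exc (Λ : ℂ → ℂ) (κ ε A t T : ℝ) : Set ℂ :=
  {s | s ∈ Zer Λ t T ∧ (s.re ≠ 1 ∨ deriv (heat t Λ) s = 0 ∨
    (t * Real.log T ≤ A ∧ ¬ Followed (heat t Λ) κ ε s))}

/-- The number of points of `A`, each counted with its multiplicity as a zero of `Λ_t`. -/
noncomputable def num (Λ : ℂ → ℂ) (t : ℝ) (A : Set ℂ) : ℕ :=
  ∑ᶠ s ∈ A, analyticOrderNatAt (heat t Λ) s

/-- **Main theorem.** Let `E : y² = x³ + a x + b` be an elliptic curve over `ℚ` with newform `f` of level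
`N`, and let `K` be an abelian number field of conductor prime to `N`, given by its group `G` of Dirichlet
characters modulo `M`.  Then `Λ(E/K, s)` exists, is unique, has a functional equation, and for all `ε > 0` and `A` there
are `c, C > 0` such that for `0 < t ≤ 1/8` and `T ≥ 2` at most the proportion `C exp (-c t log² T)` of the zeros of its
heat flow `Λ_t` with imaginary part in `(T, 2T]`, counted with multiplicity, are off the line `Re s = 1`, or multiple, or
(if `t log T ≤ A`) not followed by a simple zero on the line at the distance `(π + O(ε)) / ([K : ℚ] log (Im s))` with no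
zeros in between; and the number of these exceptional zeros is at most `C exp (-c t log² T) T log T`. -/
theorem result : ∀ (a b : ℤ) (N : ℕ) [NeZero N] (f : CuspForm (Gamma0 N : Subgroup (GL (Fin 2) ℝ)) 2) (w : ℝ),
    4 * a ^ 3 + 27 * b ^ 2 ≠ 0 → IsFormOf a b N f w →
    ∀ (M : ℕ) [NeZero M] (G : Subgroup (DirichletCharacter ℂ M)) [Fintype G], Nat.Coprime M N →
    ∃ Λ : ℂ → ℂ, IsCompleted G f Λ ∧ (∀ Λ' : ℂ → ℂ, IsCompleted G f Λ' → Λ' = Λ) ∧
      (∃ W : ℂ, ‖W‖ = 1 ∧ ∀ s : ℂ, Λ (2 - s) = W * conj (Λ (conj s))) ∧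
      (∀ t T : ℝ, 0 ≤ t → (Zer Λ t T).Finite) ∧
      ∀ ε A : ℝ, 0 < ε → ∃ c C : ℝ, 0 < c ∧ 0 < C ∧ ∀ t T : ℝ, 0 < t → t ≤ 1 / 8 → 2 ≤ T →
        (num Λ t (Exc Λ (Fintype.card G) ε A t T) : ℝ) ≤
          C * Real.exp (-(c * t * Real.log T ^ 2)) * num Λ t (Zer Λ t T) ∧
        (num Λ t (Exc Λ (Fintype.card G) ε A t T) : ℝ) ≤
          C * Real.exp (-(c * t * Real.log T ^ 2)) * T * Real.log T := by
  intro a b N _ f w _ hf M _ G _ hco
  have hf' : Pool.Agent.W169.HF.IsForm N f w :=
    { one := hf.one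
      real := hf.real
      mul := hf.mul
      pow := hf.pow
      sign := hf.sign
      fricke := hf.fricke
      good := hf.good
      bad := fun p hp hpN => by
        have h1 : (1 : ℝ) ≤ Real.sqrt p := by
          rw [Real.one_le_sqrt]
          exact_mod_cast hp.one_le
        have h2 : ‖coef f p‖ ≤ 1 := by
          rcases hf.bad p hp hpN with h | h | h <;> simp [h]
        exact h2.trans h1 }
  obtain ⟨X, v, hP, hv, hX⟩ := Pool.Agent.R838.TW.pl_ab G hf' hco
  obtain ⟨Λ, h1, h2, h3, h4⟩ := Pool.Agent.R838.TW.exists_Lam hP 1 (G := Pool.Agent.W355.UN.prodE G f) hv (σ := 3 / 2)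
    (fun s hs => by rw [Complex.ofReal_one]; exact hX s hs)
  have hκ : (1 : ℝ) / 2 ≤ Fintype.card G := by
    have h5 : (1 : ℝ) ≤ Fintype.card G := by exact_mod_cast (Fintype.card_pos : 0 < Fintype.card G)
    linarith
  obtain ⟨h5, h6⟩ := Pool.Agent.R838.CR.PL_spacing hκ h4 hv
  refine ⟨Λ, ⟨h1, h2⟩, fun Λ' h' => Pool.Agent.R838.TW.uniq h1 h'.1 ⟨3 / 2, h2⟩ ⟨3 / 2, h'.2⟩, ?_, h5, h6⟩
  obtain ⟨W, hW, h7⟩ := h3
  refine ⟨W, hW, fun s => ?_⟩
  have h8 := h7 s
  rwa [Complex.ofReal_one, mul_one] at h8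

end Pool.Agent.Results.MP_fb225e_nt.HeatFlowAbelian
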