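import Pool.Agent.R433.NF.Orders

/-!
# Modular elliptic curves over `ℚ` and number fields of any degree: the edge `Re s = 3/2`

`E_i : y² = x³ + a_i x + b_i` are finitely many modular elliptic curves over `ℚ`, pairwise not
isogenous, and `K` is a number field of any degree, with any Galois group.  Nothing is assumed about
the Galois closure of `K`; the continuation of `L(E_i/K, s)` is assumed, where it is needed, in a
neighbourhood of a point of the line `Re s = 3/2` only.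

The new point is the constant `1`: the newforms of the `E_i` are orthonormal in the sense of Rankin and
Selberg, and the permutation characters of the number fields have as scalar products the numbers
`r(K, K')` of simple factors of `K ⊗ K'`.  If `K = ℚ(α)` and `f` is the minimal polynomial of `α`, then
`r(K, K) = 2` says that `f(x)/(x - α)` is irreducible over `K`: the Galois group of `f` is doubly
transitive.
-/

set_option autoImplicit false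

namespace Pool.Agent.Results.MP_fb225e_nt.ModularEdgeNumberFields

open NumberField IsDedekindDomain Filter Topology
open Pool.Agent.Y722.EP (IsModular NotIsogenous)
open scoped TensorProduct

/-- The curve `y² = x³ + a x + b` over the field `K`. -/
noncomputable def curve (K : Type) [Field K] (a b : ℤ) : WeierstrassCurve K where
  a₁ := 0
  a₂ := 0
  a₃ := 0
  a₄ := a
  a₆ := b

/-- `V v` is, for every `v`, an integral model of `E` with discriminant minimal at `v`. -/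
def MinimalModels {K : Type} [Field K] [NumberField K] (E : WeierstrassCurve K)
    (V : HeightOneSpectrum (𝓞 K) → WeierstrassCurve (𝓞 K)) : Prop :=
  ∀ v : HeightOneSpectrum (𝓞 K),
    (∃ C : WeierstrassCurve.VariableChange K, C • E = (V v).map (algebraMap (𝓞 K) K)) ∧
    ∀ W : WeierstrassCurve (𝓞 K),
      (∃ C : WeierstrassCurve.VariableChange K, C • E = W.map (algebraMap (𝓞 K) K)) →
        ∀ n : ℕ, (V v).Δ ∈ v.asIdeal ^ n → W.Δ ∈ v.asIdeal ^ n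

open Classical in
/-- The Euler product of `L(E/K, s)` over all primes `v` of `K`, computed from the reductions of the
models `V v`. -/
noncomputable def LSeries {K : Type} [Field K] [NumberField K]
    (V : HeightOneSpectrum (𝓞 K) → WeierstrassCurve (𝓞 K)) (s : ℂ) : ℂ :=
  ∏' v : HeightOneSpectrum (𝓞 K),
    (1 - ((((Ideal.absNorm v.asIdeal : ℕ) : ℤ) -
          ((Nat.card {p : (𝓞 K ⧸ v.asIdeal) × (𝓞 K ⧸ v.asIdeal) //
            p.2 ^ 2 + Ideal.Quotient.mk v.asIdeal (V v).a₁ * p.1 * p.2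
              + Ideal.Quotient.mk v.asIdeal (V v).a₃ * p.2
            = p.1 ^ 3 + Ideal.Quotient.mk v.asIdeal (V v).a₂ * p.1 ^ 2
              + Ideal.Quotient.mk v.asIdeal (V v).a₄ * p.1
              + Ideal.Quotient.mk v.asIdeal (V v).a₆} : ℕ) : ℤ) : ℤ) : ℂ)
          * ((Ideal.absNorm v.asIdeal : ℕ) : ℂ) ^ (-s)
      + (if (V v).Δ ∈ v.asIdeal then (0 : ℂ) else 1)
          * ((Ideal.absNorm v.asIdeal : ℕ) : ℂ) ^ (1 - 2 * s))⁻¹

/-- `log |L(E/K, 3/2 + iτ + ε)| / log(1/ε)`. -/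
noncomputable def size {K : Type} [Field K] [NumberField K]
    (V : HeightOneSpectrum (𝓞 K) → WeierstrassCurve (𝓞 K)) (τ ε : ℝ) : ℝ :=
  Real.log ‖LSeries V (3 / 2 + τ * Complex.I + ε)‖ / Real.log (1 / ε)

/-- `L(E/K, s)`, for `E : y² = x³ + a x + b`, has a meromorphic continuation to a neighbourhood of
`3/2 + iτ`, of order `m` at `3/2 + iτ`. -/
def HasOrder (K : Type) [Field K] [NumberField K] (a b : ℤ) (τ : ℝ) (m : ℤ) : Prop :=
  ∃ V : HeightOneSpectrum (𝓞 K) → WeierstrassCurve (𝓞 K), MinimalModels (curve K a b) V ∧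
    ∃ Λ : ℂ → ℂ, MeromorphicAt Λ (3 / 2 + τ * Complex.I) ∧
      (∀ᶠ s in 𝓝 ((3 / 2 : ℂ) + τ * Complex.I), (3 / 2 : ℝ) < s.re → Λ s = LSeries V s) ∧
      meromorphicOrderAt Λ (3 / 2 + τ * Complex.I) = m

/-- `r(K, K')`: the number of the simple factors of `K ⊗ K'`, that is of the maximal ideals. -/
noncomputable def factors (K K' : Type) [Field K] [NumberField K] [Field K'] [NumberField K'] : ℕ :=
  Nat.card (MaximalSpectrum (K ⊗[ℚ] K'))

open Classical in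
/-- The Gram number of `(K, τ)` and `(K', τ')`. -/
noncomputable def gram (K K' : Type) [Field K] [NumberField K] [Field K'] [NumberField K']
    (τ τ' : ℝ) : ℝ :=
  ((if τ = τ' then 1 else 0) + (if τ = -τ' then 1 else 0)) / 2 * factors K K'

/-- `N(d) = ∑ d_k d_l r(K_k, K_l)` for an integer combination `∑ d_k K_k` of number fields. -/
noncomputable def normSq {κ : Type} [Fintype κ] (K : κ → Type) [∀ k, Field (K k)]
    [∀ k, NumberField (K k)] (d : κ → ℤ) : ℤ :=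
  ∑ k, ∑ l, d k * d l * (factors (K k) (K l) : ℤ)

/-- `D(d) = ∑ d_k [K_k : ℚ]`. -/
noncomputable def degree {κ : Type} [Fintype κ] (K : κ → Type) [∀ k, Field (K k)]
    [∀ k, NumberField (K k)] (d : κ → ℤ) : ℤ :=
  ∑ k, d k * (Module.finrank ℚ (K k) : ℤ)

section Aux

open Pool.Agent.W540.BE Pool.Agent.W353.L1 Pool.Agent.R433.NF Pool.Agent.W401.Cheb
open Pool.Agent.Y722.EP (rE abs_rE)
open Pool.Agent.H341R2 (lam)

/-- mean values from orders over the rational numbers -/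
theorem mean_of {K : Type} [Field K] [NumberField K] {a b : ℤ} {τ : ℝ} {m : ℤ}
    (hΔ : 4 * a ^ 3 + 27 * b ^ 2 ≠ 0) (h : HasOrder K a b τ m)
    (σ : HeightOneSpectrum (𝓞 ℚ) → GK ℚ) (hσ : ∀ v, IsFrob v (σ v)) :
    Tendsto (fun ε : ℝ => (EP (nm ℚ) ε fun v => rE a b v * fz ℚ K σ τ v) / lam ε) (𝓝[>] 0)
      (𝓝 (-(m : ℝ))) := by
  obtain ⟨V, hV, Λ, h1, h2, h3⟩ := h
  exact mean_order hΔ V hV τ σ hσ h1 h2 h3

/-- the same for the field of rational numbers as an algebra over itself -/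
theorem mean_self {a b : ℤ} {τ : ℝ} {m : ℤ}
    (hΔ : 4 * a ^ 3 + 27 * b ^ 2 ≠ 0) (h : HasOrder ℚ a b τ m)
    (σ : HeightOneSpectrum (𝓞 ℚ) → GK ℚ) (hσ : ∀ v, IsFrob v (σ v)) :
    Tendsto (fun ε : ℝ => (EP (nm ℚ) ε fun v => rE a b v *
      @fz ℚ ℚ _ _ _ _ (Algebra.id ℚ) σ τ v) / lam ε) (𝓝[>] 0)
      (𝓝 (-(m : ℝ))) := by
  obtain ⟨V, hV, Λ, h1, h2, h3⟩ := h
  exact mean_order_self hΔ V hV τ σ hσ h1 h2 h3

/-- entire continuations -/
theorem order_entire {K : Type} [Field K] [NumberField K] {a b : ℤ}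
    (hΔ : 4 * a ^ 3 + 27 * b ^ 2 ≠ 0) (V : HeightOneSpectrum (𝓞 K) → WeierstrassCurve (𝓞 K))
    (hV : MinimalModels (curve K a b) V) {Λ : ℂ → ℂ} (hd : Differentiable ℂ Λ)
    (hΛ : ∀ s : ℂ, (3 / 2 : ℝ) < s.re → Λ s = LSeries V s) (τ : ℝ)
    (σ : HeightOneSpectrum (𝓞 ℚ) → GK ℚ) (hσ : ∀ v, IsFrob v (σ v)) :
    ∃ m : ℤ, HasOrder K a b τ m ∧ (Λ (3 / 2 + τ * Complex.I) = 0 ↔ m ≠ 0) := by
  have han : AnalyticAt ℂ Λ (3 / 2 + τ * Complex.I) := hd.analyticAt _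
  obtain ⟨h1, -⟩ := size_fz (K := ℚ) (F := K) hΔ V hV τ σ hσ
  have hne : analyticOrderAt Λ (3 / 2 + τ * Complex.I) ≠ ⊤ := by
    intro h
    rw [analyticOrderAt_eq_top] at h
    have h2 := (Pool.Agent.H341R2.path_tendsto' (3 / 2 + τ * Complex.I)).eventually h
    have h3 := (h1.and (h2.and self_mem_nhdsWithin)).exists
    obtain ⟨ε, h4, h5, h6⟩ := h3
    have hε : (0 : ℝ) < ε := h6
    refine h4 ?_
    have h7 := hΛ (3 / 2 + τ * Complex.I + ε) (by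
      have e : (3 / 2 + (τ : ℂ) * Complex.I + (ε : ℂ)).re = 3 / 2 + ε := by simp
      rw [e]
      linarith)
    rw [h5] at h7
    exact h7.symm
  obtain ⟨n, hn⟩ := ENat.ne_top_iff_exists.1 hne
  have hm := han.meromorphicOrderAt_eq
  rw [← hn] at hm
  refine ⟨n, ⟨V, hV, Λ, han.meromorphicAt, Eventually.of_forall fun s hs => hΛ s hs, ?_⟩, ?_⟩
  · rw [hm]
    rfl
  · have h2 := han.analyticOrderAt_ne_zero
    rw [← h2, ← hn]
    simp

end Aux

open Complex in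
/-- **Modular elliptic curves over number fields on the edge `Re s = 3/2`.**

Let `E_i` be finitely many modular elliptic curves over `ℚ`, pairwise not isogenous, and `K_k` finitely
many number fields.

1. Let `τ_k` be real numbers and `x_{ik}(ε) = log |L(E_i/K_k, 3/2 + iτ_k + ε)| / log(1/ε)`.  Then
`L(E_i/K_k, 3/2 + iτ_k + ε) ≠ 0` for small `ε > 0`, and (nothing is assumed about continuation) for all
`C` and `η > 0` and all small `ε > 0`,
`(∑ c_i d_k x_{ik}(ε))² ≤ (∑ c_i²) (∑ d_k d_l g(k, l)) + η` for all `0 ≤ c_i ≤ C`, `|d_k| ≤ C`, where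
`g(k, l) = ([τ_k = τ_l] + [τ_k = -τ_l]) / 2 · r(K_k, K_l)`.
2. The same inequality with `η = 0` holds for the orders `m_{ik}` at `3/2 + iτ_k`, if the `L(E_i/K_k, s)`
have meromorphic continuations to neighbourhoods of these points.
3. Let `d_k` be integers, `N = ∑ d_k d_l r(K_k, K_l)` and `D = ∑ d_k [K_k : ℚ]`, and let
`M(τ) = ∑ d_k m_k(τ)` be the order of `∏ L(E_i/K_k, s)^{d_k}` at `3/2 + iτ`.  Then
`∑_{τ ∈ S} M(τ)² ≤ N` for every finite set `S` of real numbers; `2 M(τ)² ≤ N` if `τ ≠ 0`; and if `N > 0`,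
then `M(τ)² < N` if `D² > 4 N`, and `2 M(τ)² < N` if `τ ≠ 0` and `D² > 2 N`.
4. For one number field `L` of degree `n`, `r = r(L, L)`, `m` the order of `L(E_i/L, s)` and `m₀` the order
of `L(E_i/ℚ, s)` at `3/2 + iτ`: `|m₀| ≤ 1`, `m₀ = 0` if `τ ≠ 0`;
* `∑_{τ ∈ S} (m(τ) - m₀(τ))² ≤ r - 1` for finite sets `S`;
* if `r = 2` and `n ≥ 4` then `m = m₀`;
* if `r ≤ 3`, `n ≥ 4` and `τ ≠ 0` then `m = 0`.
5. If `r(L, L) = 2`, `[L : ℚ] ≥ 4` and `L(E_i/L, s)`, `L(E_i/ℚ, s)` are continued to entire functions `Λ`,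
`Λ₀`, then every zero of `Λ` on the line `Re s = 3/2` is `3/2` and a zero of `Λ₀`. -/
theorem result (ι : Type) [Fintype ι] (a b : ι → ℤ) (hΔ : ∀ i, 4 * a i ^ 3 + 27 * b i ^ 2 ≠ 0)
    (hmod : ∀ i, IsModular (a i) (b i))
    (hne : ∀ i j, i ≠ j → NotIsogenous (a i) (b i) (a j) (b j))
    (κ : Type) [Fintype κ] (K : κ → Type) [∀ k, Field (K k)] [∀ k, NumberField (K k)] :
    (∀ (τ : κ → ℝ) (V : ι → ∀ k, HeightOneSpectrum (𝓞 (K k)) → WeierstrassCurve (𝓞 (K k))),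
      (∀ i k, MinimalModels (curve (K k) (a i) (b i)) (V i k)) →
      (∀ i k, ∀ᶠ ε : ℝ in 𝓝[>] 0, LSeries (V i k) (3 / 2 + τ k * I + ε) ≠ 0) ∧
      ∀ C η : ℝ, 0 < η → ∀ᶠ ε : ℝ in 𝓝[>] 0, ∀ (c : ι → ℝ) (d : κ → ℝ),
        (∀ i, 0 ≤ c i ∧ c i ≤ C) → (∀ k, |d k| ≤ C) →
        (∑ i, ∑ k, c i * d k * size (V i k) (τ k) ε) ^ 2 ≤ (∑ i, c i ^ 2) *
          (∑ k, ∑ l, d k * d l * gram (K k) (K l) (τ k) (τ l)) + η) ∧
    (∀ (τ : κ → ℝ) (m : ι → κ → ℤ), (∀ i k, HasOrder (K k) (a i) (b i) (τ k) (m i k)) →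
      ∀ (c : ι → ℝ) (d : κ → ℝ), (∀ i, 0 ≤ c i) →
        (∑ i, ∑ k, c i * d k * m i k) ^ 2 ≤ (∑ i, c i ^ 2) *
          (∑ k, ∑ l, d k * d l * gram (K k) (K l) (τ k) (τ l))) ∧
    (∀ (i : ι) (d : κ → ℤ),
      (∀ (S : Finset ℝ) (m : ℝ → κ → ℤ), (∀ τ ∈ S, ∀ k, HasOrder (K k) (a i) (b i) τ (m τ k)) →
        ∑ τ ∈ S, (∑ k, d k * m τ k) ^ 2 ≤ normSq K d) ∧
      (∀ (τ : ℝ) (m : κ → ℤ), (∀ k, HasOrder (K k) (a i) (b i) τ (m k)) →
        (0 < normSq K d → 4 * normSq K d < degree K d ^ 2 → (∑ k, d k * m k) ^ 2 < normSq K d) ∧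
        (τ ≠ 0 → 2 * (∑ k, d k * m k) ^ 2 ≤ normSq K d ∧ (0 < normSq K d →
          2 * normSq K d < degree K d ^ 2 → 2 * (∑ k, d k * m k) ^ 2 < normSq K d)))) ∧
    (∀ (i : ι) (L : Type) [Field L] [NumberField L],
      (∀ (S : Finset ℝ) (m m₀ : ℝ → ℤ), (∀ τ ∈ S, HasOrder L (a i) (b i) τ (m τ)) →
        (∀ τ ∈ S, HasOrder ℚ (a i) (b i) τ (m₀ τ)) →
        ∑ τ ∈ S, (m τ - m₀ τ) ^ 2 ≤ (factors L L : ℤ) - 1) ∧
      (∀ (τ : ℝ) (m m₀ : ℤ), HasOrder L (a i) (b i) τ m → HasOrder ℚ (a i) (b i) τ m₀ →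
        |m₀| ≤ 1 ∧ (τ ≠ 0 → m₀ = 0) ∧
        (factors L L = 2 → 4 ≤ Module.finrank ℚ L → m = m₀) ∧
        (factors L L ≤ 3 → 4 ≤ Module.finrank ℚ L → τ ≠ 0 → m = 0))) ∧
    (∀ (i : ι) (L : Type) [Field L] [NumberField L],
      factors L L = 2 → 4 ≤ Module.finrank ℚ L →
      ∀ (V : HeightOneSpectrum (𝓞 L) → WeierstrassCurve (𝓞 L))
        (V₀ : HeightOneSpectrum (𝓞 ℚ) → WeierstrassCurve (𝓞 ℚ)),
      MinimalModels (curve L (a i) (b i)) V → MinimalModels (curve ℚ (a i) (b i)) V₀ →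
      ∀ Λ Λ₀ : ℂ → ℂ, Differentiable ℂ Λ → Differentiable ℂ Λ₀ →
      (∀ s : ℂ, (3 / 2 : ℝ) < s.re → Λ s = LSeries V s) →
      (∀ s : ℂ, (3 / 2 : ℝ) < s.re → Λ₀ s = LSeries V₀ s) →
      ∀ s : ℂ, s.re = 3 / 2 → Λ s = 0 → s = 3 / 2 ∧ Λ₀ (3 / 2) = 0) := by
  classical
  choose σ hσ using W540.BE.exists_isFrob (F := ℚ)
  have hR := R433.AT.meanOne a b hmod hne hΔ
  have hR2 : ∀ i v, |Y722.EP.rE (K := ℚ) (a i) (b i) v| ≤ 2 := fun i v => Y722.EP.abs_rE _ _ v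
  have hR1 : ∀ i, ∃ C : ℝ, ∀ᶠ ε : ℝ in 𝓝[>] 0, (W540.BE.EP (W540.BE.nm ℚ) ε fun v =>
      Y722.EP.rE (K := ℚ) (a i) (b i) v ^ 2) ≤ Real.log (1 / ε) + C := by
    intro i
    obtain ⟨C, hC⟩ := hR.2 1
    refine ⟨C, hC.mono fun ε h => ?_⟩
    have h1 := h (fun j => if j = i then 1 else 0) (fun j => by split_ifs <;> norm_num)
    have e1 : (fun v => (∑ j, (if j = i then (1 : ℝ) else 0) *
        Y722.EP.rE (K := ℚ) (a j) (b j) v) ^ 2) =
        fun v => Y722.EP.rE (K := ℚ) (a i) (b i) v ^ 2 := by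
      funext v
      rw [Finset.sum_eq_single i (fun j _ hj => by rw [if_neg hj, zero_mul])
        (fun h => absurd (Finset.mem_univ _) h), if_pos rfl, one_mul]
    have e2 : ∑ j, (if j = i then (1 : ℝ) else 0) ^ 2 = 1 := by
      rw [Finset.sum_eq_single i (fun j _ hj => by rw [if_neg hj]; norm_num)
        (fun h => absurd (Finset.mem_univ _) h), if_pos rfl, one_pow]
    rw [e1, e2, one_mul] at h1
    exact h1
  have hVb : ∀ (τ : κ → ℝ) k v, |R433.NF.fz ℚ (K k) σ (τ k) v| ≤ Module.finrank ℚ (K k) :=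
    fun τ k v => R433.NF.abs_fz σ (τ k) v
  have hg : ∀ (τ : κ → ℝ) k l, Tendsto (fun ε : ℝ => (W540.BE.EP (W540.BE.nm ℚ) ε fun v =>
      R433.NF.fz ℚ (K k) σ (τ k) v * R433.NF.fz ℚ (K l) σ (τ l) v) / H341R2.lam ε) (𝓝[>] 0)
      (𝓝 (gram (K k) (K l) (τ k) (τ l))) :=
    fun τ k l => R433.NF.fz_second (F := K k) (F' := K l) σ hσ (τ k) (τ l)
  have hself : ∀ (i : ι) (τ : ℝ) (m₀ : ℤ), HasOrder ℚ (a i) (b i) τ m₀ →
      m₀ ^ 2 ≤ 1 ∧ (τ ≠ 0 → m₀ = 0) := by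
    intro i τ m₀ h
    obtain ⟨C, hC⟩ := hR1 i
    exact R433.NF.self_orders (hR2 i) hC σ hσ τ (mean_self (hΔ i) h σ hσ)
  have hpair : ∀ (i : ι) (L : Type) [Field L] [NumberField L] (τ : ℝ) (m m₀ : ℤ),
      HasOrder L (a i) (b i) τ m → HasOrder ℚ (a i) (b i) τ m₀ →
      (factors L L = 2 → 4 ≤ Module.finrank ℚ L → m = m₀) ∧
        (factors L L ≤ 3 → 4 ≤ Module.finrank ℚ L → τ ≠ 0 → m = 0) := by
    intro i L _ _ τ m m₀ h h0
    obtain ⟨C, hC⟩ := hR1 i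
    have h1 := R433.NF.pair_mean (hR2 i) σ τ (mean_of (hΔ i) h σ hσ) (mean_self (hΔ i) h0 σ hσ)
    obtain ⟨h2, h3, h4⟩ := R433.NF.pair_orders (hR2 i) hC σ hσ τ h1
    have e : (R433.NF.nfac ℚ L L : ℤ) = (factors L L : ℤ) := rfl
    rw [e] at h2 h3 h4
    have h0' := (hself i τ m₀ h0).2
    have hsq : 0 ≤ (m - m₀) ^ 2 := sq_nonneg _
    have hz : (m - m₀) ^ 2 = 0 → m = m₀ := fun h => by
      have := (pow_eq_zero_iff (two_ne_zero)).1 h
      omega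
    refine ⟨fun hr hn => ?_, fun hr hn hτ => ?_⟩
    · have hn' : (4 : ℤ) ≤ (Module.finrank ℚ L : ℤ) := by exact_mod_cast hn
      rw [hr] at h3
      have h5 := h3 (by norm_num) (by push_cast; nlinarith)
      refine hz ?_
      push_cast at h5
      omega
    · have hn' : (4 : ℤ) ≤ (Module.finrank ℚ L : ℤ) := by exact_mod_cast hn
      have hr' : (factors L L : ℤ) ≤ 3 := by exact_mod_cast hr
      obtain ⟨h5, h6⟩ := h4 hτ
      have h7 : (m - m₀) ^ 2 = 0 := by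
        by_cases hr2 : 0 < (factors L L : ℤ) - 1
        · have h8 := h6 hr2 (by nlinarith)
          omega
        · omega
      rw [hz h7]
      exact h0' hτ
  refine ⟨fun τ V hV => ?_, fun τ m hm c d hc => ?_, fun i d => ⟨fun S m hm => ?_,
    fun τ m hm => ?_⟩, fun i L _ _ => ⟨fun S m m₀ hm hm₀ => ?_, fun τ m m₀ h h0 => ?_⟩,
    fun i L _ _ hr hn V V₀ hV hV₀ Λ Λ₀ hd hd₀ hΛ hΛ₀ s hs hs0 => ?_⟩
  · have hsz := fun i k => R433.NF.size_fz (K := ℚ) (F := K k) (hΔ i) (V i k) (hV i k) (τ k) σ hσ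
    refine ⟨fun i k => (hsz i k).1, fun C η hη => ?_⟩
    exact R433.NF.matrix_ineq (hVb τ) (hg τ) hR (fun i k => (hsz i k).2) (C := C) hη
  · have hx : ∀ i k, Tendsto (fun ε : ℝ => (W540.BE.EP (W540.BE.nm ℚ) ε fun v =>
        Y722.EP.rE (K := ℚ) (a i) (b i) v * R433.NF.fz ℚ (K k) σ (τ k) v) / H341R2.lam ε -
        (W540.BE.EP (W540.BE.nm ℚ) ε fun v => Y722.EP.rE (K := ℚ) (a i) (b i) v *
          R433.NF.fz ℚ (K k) σ (τ k) v) / H341R2.lam ε) (𝓝[>] 0) (𝓝 0) := by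
      intro i k
      simp only [sub_self]
      exact tendsto_const_nhds
    exact R433.NF.matrix_order (hVb τ) (hg τ) hR hx m
      (fun i k => mean_of (hΔ i) (hm i k) σ hσ) c d hc
  · obtain ⟨C, hC⟩ := hR1 i
    exact R433.NF.combo_heights (F := K) (hR2 i) hC σ hσ d S
      (fun τ hτ k => mean_of (hΔ i) (hm τ hτ k) σ hσ)
  · obtain ⟨C, hC⟩ := hR1 i
    exact (R433.NF.combo_orders (F := K) (hR2 i) hC σ hσ d τ
      (fun k => mean_of (hΔ i) (hm k) σ hσ)).2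
  · obtain ⟨C, hC⟩ := hR1 i
    exact R433.NF.pair_heights (F := L) (hR2 i) hC σ hσ S (M := fun τ => m τ - m₀ τ)
      (fun τ hτ => R433.NF.pair_mean (hR2 i) σ τ (mean_of (hΔ i) (hm τ hτ) σ hσ)
        (mean_self (hΔ i) (hm₀ τ hτ) σ hσ))
  · have h1 := hself i τ m₀ h0
    refine ⟨?_, h1.2, hpair i L τ m m₀ h h0⟩
    have h2 := h1.1
    rw [← sq_abs] at h2
    by_contra h3
    push Not at h3
    nlinarith
  · obtain ⟨τ, rfl⟩ : ∃ τ : ℝ, s = 3 / 2 + τ * I := ⟨s.im, by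
      apply Complex.ext
      · rw [hs]; simp
      · simp⟩
    obtain ⟨m, h1, h2⟩ := order_entire (hΔ i) V hV hd hΛ τ σ hσ
    obtain ⟨m₀, h3, h4⟩ := order_entire (hΔ i) V₀ hV₀ hd₀ hΛ₀ τ σ hσ
    have h5 := (hpair i L τ m m₀ h1 h3).1 hr hn
    have h6 := h2.1 hs0
    rw [h5] at h6
    have h7 : τ = 0 := by
      by_contra h8
      exact h6 ((hself i τ m₀ h3).2 h8)
    have h9 := h4.2 h6
    rw [h7] at h9 ⊢
    simp only [Complex.ofReal_zero, zero_mul, add_zero] at h9 ⊢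
    exact ⟨trivial, h9⟩

end Pool.Agent.Results.MP_fb225e_nt.ModularEdgeNumberFields
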