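import Pool.Agent.R791.CurveNF

/-!
# Continuation and Riemann hypothesis for elliptic curves over number fields: a criterion by finite sums

Let `K` be a number field and `E : y² = x³ + a x + b`, `a, b ∈ 𝓞_K`; `v` runs over the primes of `K` that do not
divide `6(4a³+27b²)`, and `#E(k_v) = N_v + 1`. Let `L(E/K, s)` be the Euler product over these `v`, `Re s > 3/2`. For
`1 < ρ < ρ'` let

`w_ρ(u) = (2π)⁻¹ ∫ Re (exp (z - u z^(1/ρ)) / z) dt`, `z = 1 + it`, and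
`S_ρ(Y) = ∑_{Nv ≤ exp((log Y)^ρ')} w_ρ(log Nv / log Y) log (#E(k_v)/Nv)`,

a FINITE sum of point counts. For every such curve over every number field the following is proved, where NOTHING is
assumed about the continuation of `L(E/K, s)`:

(1) `S_ρ(Y) = O(exp (ε (log Y)^ρ))` for every `ε > 0` if and only if `L(E/K, s)` has a holomorphic continuation WITHOUT
ZEROS to the sector `|arg (s-1)| < π/(2ρ)`.

(2) This holds for all `1 < ρ < ρ'`, or for a sequence of `ρ` tending to `1`, if and only if `L(E/K, s)` has a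
holomorphic continuation without zeros to the half plane `Re s > 1`.

(3) For a continuable pair, i.e. if `L(E/K, s)` has an entire continuation `F` (of order `m` at `s = 1`), the exponent
of growth of `S_ρ` in `(log Y)^ρ` is exactly the supremum of `Re (s-1)^ρ` over the zeros `s` of `F` in the sector, the
sector is free of zeros iff `S_ρ(Y) = m log log Y + O(1)` iff `S_ρ(Y) = O(log log Y)`, and `F` has no zeros with
`Re s > 1` (with the functional equation: the Riemann hypothesis for `E/K`) iff `S_ρ(Y) = m log log Y + O(1)` for all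
`1 < ρ < ρ'`.

So the Riemann hypothesis for `E/K`, with or without known continuation, is a statement on the growth of finite
sums of point counts.
-/

set_option autoImplicit false

namespace Pool.Agent.Results.MP_fb225e_nt.SectorCriterion

open Filter Topology Complex NumberField IsDedekindDomain
open Pool.Agent.TH942.ES Pool.Agent.R791.SectGen Pool.Agent.R791.CurveNF

/-- The sector `|arg (s-1)| < π/(2ρ)`, `s ≠ 1`. -/
def Sector (ρ : ℝ) : Set ℂ := {s | s ≠ 1 ∧ |(s - 1).arg| < Real.pi / (2 * ρ)}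

/-- `|S_ρ(Y)| ≤ C(ε) exp ((θ + ε) (log Y)^ρ)` for every `ε > 0` and all large `Y`. -/
def GrowthLE {K : Type} [Field K] [NumberField K] (a b : 𝓞 K) (ρ ρ' θ : ℝ) : Prop :=
  ∀ ε : ℝ, 0 < ε → ∃ C : ℝ, ∀ᶠ Y : ℝ in atTop,
    |sum a b ρ ρ' Y| ≤ C * Real.exp ((θ + ε) * Real.log Y ^ ρ)

/-- **Continuation and Riemann hypothesis over number fields by finite sums of point counts.** -/
theorem result {K : Type} [Field K] [NumberField K] (a b : 𝓞 K) :
    (∀ ρ ρ' : ℝ, 1 < ρ → ρ < ρ' → (GrowthLE a b ρ ρ' 0 ↔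
      ∃ G : ℂ → ℂ, (∀ s : ℂ, s ∈ Sector ρ ∨ 3 / 2 < s.re → DifferentiableAt ℂ G s ∧ G s ≠ 0) ∧
        ∀ s : ℂ, 3 / 2 < s.re → G s = LSeries a b s)) ∧
    List.TFAE [
      ∃ G : ℂ → ℂ, (∀ s : ℂ, 1 < s.re → DifferentiableAt ℂ G s ∧ G s ≠ 0) ∧
        ∀ s : ℂ, 3 / 2 < s.re → G s = LSeries a b s,
      ∀ ρ ρ' : ℝ, 1 < ρ → ρ < ρ' → GrowthLE a b ρ ρ' 0,
      ∀ ρ₁ : ℝ, 1 < ρ₁ → ∃ ρ ρ' : ℝ, 1 < ρ ∧ ρ < ρ₁ ∧ ρ < ρ' ∧ GrowthLE a b ρ ρ' 0] ∧
    ∀ (F : ℂ → ℂ) (m : ℕ), Differentiable ℂ F → (∀ s : ℂ, 3 / 2 < s.re → F s = LSeries a b s) →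
      analyticOrderAt F 1 = m →
      (∀ ρ ρ' : ℝ, 1 < ρ → ρ < ρ' →
        (∀ θ : ℝ, 0 ≤ θ → ((∀ s ∈ Sector ρ, θ < ((s - 1) ^ (ρ : ℂ)).re → F s ≠ 0) ↔
          GrowthLE a b ρ ρ' θ)) ∧
        List.TFAE [
          ∀ s ∈ Sector ρ, F s ≠ 0,
          ∃ C : ℝ, ∀ᶠ Y : ℝ in atTop, |sum a b ρ ρ' Y - m * Real.log (Real.log Y)| ≤ C,
          ∃ C : ℝ, ∀ᶠ Y : ℝ in atTop, |sum a b ρ ρ' Y| ≤ C * Real.log (Real.log Y)]) ∧
      ((∀ s : ℂ, 1 < s.re → F s ≠ 0) ↔ ∀ ρ ρ' : ℝ, 1 < ρ → ρ < ρ' →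
        ∃ C : ℝ, ∀ᶠ Y : ℝ in atTop, |sum a b ρ ρ' Y - m * Real.log (Real.log Y)| ≤ C) := by
  have E := curve_sys a b
  have hG : ∀ ρ ρ' θ : ℝ, GrowthLE a b ρ ρ' θ ↔ ∀ ε : ℝ, 0 < ε → ∃ C : ℝ, ∀ᶠ Y : ℝ in atTop,
      |SrE (fun v : {v // GoodV a b v} => Pool.Agent.H921R2.TatePole.nm v.1) (alV a b) ρ ρ' Y| ≤
        C * Real.exp ((θ + ε) * Real.log Y ^ ρ) := by
    intro ρ ρ' θ
    unfold GrowthLE
    simp only [sum_eq]
  have hG0 : ∀ ρ ρ' : ℝ, GrowthLE a b ρ ρ' 0 ↔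
      Slow (fun v : {v // GoodV a b v} => Pool.Agent.H921R2.TatePole.nm v.1) (alV a b) ρ ρ' := by
    intro ρ ρ'
    rw [hG]
    unfold Slow
    simp only [zero_add]
  have hS : ∀ ρ, Sector ρ = SectorAt 1 ρ := fun ρ => by
    unfold Sector SectorAt
    simp only [Complex.ofReal_one]
  have h32 : ∀ s : ℂ, (1 : ℝ) + 1 / 2 < s.re ↔ 3 / 2 < s.re := fun s => by norm_num
  have hL : ∀ s : ℂ, LE (fun v : {v // GoodV a b v} => Pool.Agent.H921R2.TatePole.nm v.1)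
      (alV a b) (s - (1 : ℝ)) = LSeries a b s := fun s => by
    rw [Complex.ofReal_one, LE_eq]
  refine ⟨fun ρ ρ' hρ hρ' => ?_, ?_, fun F m hF he hm => ?_⟩
  · rw [hG0, slow_iff E 1 hρ hρ']
    simp only [h32, hL, hS]
  · have h1 := slow_all E 1
    simp only [h32, hL] at h1
    simp only [hG0]
    exact h1
  · have he' : ∀ s : ℂ, (1 : ℝ) + 1 / 2 < s.re → F s =
        LE (fun v : {v // GoodV a b v} => Pool.Agent.H921R2.TatePole.nm v.1)
          (alV a b) (s - (1 : ℝ)) := fun s hs => by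
      rw [hL]; exact he s ((h32 s).1 hs)
    have hd : ∀ s : ℂ, (1 : ℝ) < s.re → DifferentiableAt ℂ F s := fun s _ => hF s
    have hm' : analyticOrderAt F ((1 : ℝ) : ℂ) = m := by rw [Complex.ofReal_one]; exact hm
    have ha : AnalyticAt ℂ F ((1 : ℝ) : ℂ) := hF.analyticAt _
    refine ⟨fun ρ ρ' hρ hρ' => ⟨fun θ hθ => ?_, ?_⟩, ?_⟩
    · rw [hG, ← level_iff E 1 hd he' hρ hρ' hθ, hS]
      simp only [Complex.ofReal_one]
    · have h1 := sector_tfae E 1 hd he' ha hm' hρ hρ'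
      simp only [← sum_eq, ← hS] at h1
      tfae_have 1 ↔ 2 := h1.out 0 1
      tfae_have 1 ↔ 3 := h1.out 0 2
      tfae_finish
    · have h1 := rh_tfae E 1 hd he' ha hm'
      simp only [← sum_eq] at h1
      exact h1.out 0 1

end Pool.Agent.Results.MP_fb225e_nt.SectorCriterion
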