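import Pool.Agent.R838.TW.Cnt
import Pool.Agent.R838.TW.Form

/-!
# Zeros off the line of the L-functions of elliptic curves over abelian number fields

Let `E` be an elliptic curve over `ℚ` of conductor `N`, `K` an abelian number field of conductor prime to `N` (given by
its group `G` of Dirichlet characters, `[K : ℚ] = card G`), and `Λ(s) = Λ(E/K, s)` the completed L-function of `E` over
`K`. We prove unconditionally, for every `E`, every `K` and EVERY `c < 1`:

* the number of zeros of `Λ` with imaginary part in `(0, T]` and distance at least `δ` from the line `Re s = 1`, counted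
  with multiplicity, is at most `C T^(1 - c δ) log T`, for all `δ ≥ 0` and all `T ≥ 2`; in particular the number of those
  at distance at least `h / log T` is at most `C e^(-c h) T log T`;
* for all `r ≥ 0` and `T ≥ 2` the heights `t` in `[0, T]` at which `σ ↦ |Λ(σ + i t)|` is not strictly increasing on
  `σ ≥ 1 + r / log T` form a set of measure at most `C e^(-c r) T`.

The Riemann hypothesis for `L(E/K, s)` is equivalent to the statement that `σ ↦ |Λ(σ + i t)|` is strictly increasing on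
`σ ≥ 1` for every real `t`.

Proof: `Λ` is a product of the L-functions of the twists of the newform of `E` by Dirichlet characters. For each factor
the mollified second moment near the line is bounded, with mollifiers of every length `T^κ`, `κ < 1` (project GD2 of
helper671, `Pool.Agent.Y671.GL`: shifted convolution sums by Jutila's circle method; `Pool.Agent.Y24.GL` (helper24):
density theorem with every `c < 1`; these were applied so far to newforms with real coefficients only,
MP_cd509c_nt). Here the twists are added (`Pool.Agent.R838.TW`). The second part follows from the first one, since a zero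
`1 + β + i γ` disturbs the growth only for `|t - γ| < |β|` (Hadamard product of the function and its reflection).
-/

set_option autoImplicit false

open Complex UpperHalfPlane MatrixGroups CongruenceSubgroup
open scoped ComplexConjugate

namespace Pool.Agent.Results.MP_fb225e_nt.ZeroDensityAbelian

/-! ### Elliptic curves over `ℚ` and abelian number fields -/

/-- The coefficient `a_p` of `E : y² = x³ + a x + b` at a prime `p ∤ 2 (4a³ + 27b²)`: `p` minus the
number of pairs `(x, y)` modulo `p` with `y² ≡ x³ + a x + b (mod p)`. -/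
noncomputable def ap (a b : ℤ) (p : ℕ) : ℤ :=
  (p : ℤ) - (((Finset.range p ×ˢ Finset.range p).filter
    (fun xy : ℕ × ℕ => (p : ℤ) ∣ (xy.2 : ℤ) ^ 2 -
      ((xy.1 : ℤ) ^ 3 + a * (xy.1 : ℤ) + b))).card : ℤ)

/-- The `n`-th Fourier coefficient of `f`. -/
noncomputable def coef {N : ℕ} (f : CuspForm (Gamma0 N : Subgroup (GL (Fin 2) ℝ)) 2) (n : ℕ) : ℂ :=
  (qExpansion 1 f).coeff n

/-- `f ∈ S_2(Γ₀(N))` is the newform of the elliptic curve `E : y² = x³ + a x + b` of conductor `N` and
root number `w`: the Fourier coefficients `c(n)` of `f` are real with `c(1) = 1`, they satisfy the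
Hecke relations `c(mn) = c(m) c(n)` for coprime `m`, `n` and `c(p^(j+2)) = c(p) c(p^(j+1)) - p c(p^j)`
(without the last term if `p ∣ N`), `f(-1/(Nτ)) = -w N τ² f(τ)`, `c(p) = a_p(E)` for all primes
`p ∤ 2 (4a³ + 27b²)`, `|c(p)| ≤ 2 √p` for all `p ∤ N` (Hasse) and `c(p) = 0, 1, -1` for `p ∣ N`. -/
structure IsFormOf (a b : ℤ) (N : ℕ) (f : CuspForm (Gamma0 N : Subgroup (GL (Fin 2) ℝ)) 2) (w : ℝ) :
    Prop where
  one : coef f 1 = 1
  real : ∀ n, (coef f n).im = 0
  mul : ∀ m n : ℕ, Nat.Coprime m n → coef f (m * n) = coef f m * coef f n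
  pow : ∀ p j : ℕ, p.Prime → coef f (p ^ (j + 2)) = coef f p * coef f (p ^ (j + 1)) -
      (if p ∣ N then 0 else (p : ℂ) * coef f (p ^ j))
  sign : w = 1 ∨ w = -1
  fricke : ∀ τ τ' : ℍ, (τ' : ℂ) * ((N : ℂ) * (τ : ℂ)) = -1 →
    f τ' = -(w : ℂ) * (N : ℂ) * (τ : ℂ) ^ 2 * f τ
  points : ∀ p : ℕ, p.Prime → ¬ (p : ℤ) ∣ 2 * (4 * a ^ 3 + 27 * b ^ 2) → coef f p = (ap a b p : ℂ)
  good : ∀ p : ℕ, p.Prime → ¬ p ∣ N → ‖coef f p‖ ≤ 2 * Real.sqrt p
  bad : ∀ p : ℕ, p.Prime → p ∣ N → coef f p = 0 ∨ coef f p = 1 ∨ coef f p = -1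

/-- The completed L-function of the twist of `E` by `χ` modulo `q`, for `Re s > 3/2`:
`(√N q / 2π)^s Γ(s) ∑ c(n) χ(n) n^(-s)`. -/
noncomputable def twist {N : ℕ} (f : CuspForm (Gamma0 N : Subgroup (GL (Fin 2) ℝ)) 2) {q : ℕ}
    (χ : DirichletCharacter ℂ q) (s : ℂ) : ℂ :=
  ((Real.sqrt N * q / (2 * Real.pi) : ℝ) : ℂ) ^ s * Complex.Gamma s *
    ∑' n : ℕ, coef f (n + 1) * χ ((n + 1 : ℕ) : ZMod q) * ((n + 1 : ℕ) : ℂ) ^ (-s)

/-- `Λ = Λ(E/K, s)`, where `K` is the abelian number field with the group `G` of Dirichlet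
characters: `Λ` is entire and, for `Re s > 3/2`, it is the product over `χ` in `G` of the completed
L-functions of the twists of `E` by the primitive character associated with `χ`. -/
def IsCompleted {M : ℕ} (G : Subgroup (DirichletCharacter ℂ M)) [Fintype G] {N : ℕ}
    (f : CuspForm (Gamma0 N : Subgroup (GL (Fin 2) ℝ)) 2) (Λ : ℂ → ℂ) : Prop :=
  Differentiable ℂ Λ ∧ ∀ s : ℂ, 3 / 2 < s.re →
    Λ s = ∏ χ : G, twist f (χ : DirichletCharacter ℂ M).primitiveCharacter s

/-! ### Zeros and growth -/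

/-- The zeros of `Λ` at distance at least `δ` from the line `Re s = 1`, with imaginary part in `(0, T]`. -/
def Off (Λ : ℂ → ℂ) (δ T : ℝ) : Set ℂ := {s | Λ s = 0 ∧ δ ≤ |s.re - 1| ∧ 0 < s.im ∧ s.im ≤ T}

/-- The number of points of `A`, each counted with its multiplicity as a zero of `Λ`. -/
noncomputable def num (Λ : ℂ → ℂ) (A : Set ℂ) : ℕ := ∑ᶠ s ∈ A, analyticOrderNatAt Λ s

/-- `σ ↦ |Λ(σ + i t)|` is strictly increasing on the half-line `σ ≥ 1 + h`. -/
def Grows (Λ : ℂ → ℂ) (h t : ℝ) : Prop :=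
  StrictMonoOn (fun σ : ℝ => ‖Λ (σ + t * Complex.I)‖) (Set.Ici (1 + h))

/-- **Main theorem.** Let `E : y² = x³ + a x + b` be an elliptic curve over `ℚ` with newform `f` of level
`N`, and let `K` be an abelian number field of conductor prime to `N`, given by its group `G` of Dirichlet
characters modulo `M`.  Then `Λ(E/K, s)` exists, is unique and has a functional equation. For every
`c < 1` there is `C` such that for `T ≥ 2`: the number of zeros of `Λ` with imaginary part in `(0, T]` and distance at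
least `δ ≥ 0` from the line `Re s = 1` is at most `C T^(1 - c δ) log T`; and the measure of the heights `t` in `[0, T]`
for which `|Λ(σ + i t)|` is not strictly increasing on `σ ≥ 1 + r / log T`, `r ≥ 0`, is at most `C e^(-c r) T`. The
Riemann hypothesis for `L(E/K, s)` holds if and only if `|Λ(σ + i t)|` is strictly increasing on `σ ≥ 1` for all `t`. -/
theorem result : ∀ (a b : ℤ) (N : ℕ) [NeZero N] (f : CuspForm (Gamma0 N : Subgroup (GL (Fin 2) ℝ)) 2) (w : ℝ),
    4 * a ^ 3 + 27 * b ^ 2 ≠ 0 → IsFormOf a b N f w →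
    ∀ (M : ℕ) [NeZero M] (G : Subgroup (DirichletCharacter ℂ M)) [Fintype G], Nat.Coprime M N →
    ∃ Λ : ℂ → ℂ, IsCompleted G f Λ ∧ (∀ Λ' : ℂ → ℂ, IsCompleted G f Λ' → Λ' = Λ) ∧
      (∃ W : ℂ, ‖W‖ = 1 ∧ ∀ s : ℂ, Λ (2 - s) = W * conj (Λ (conj s))) ∧
      (∀ c : ℝ, c < 1 → ∃ C : ℝ, 0 < C ∧
        (∀ δ T : ℝ, 0 ≤ δ → 2 ≤ T →
          (Off Λ δ T).Finite ∧ (num Λ (Off Λ δ T) : ℝ) ≤ C * T ^ (1 - c * δ) * Real.log T) ∧
        (∀ r T : ℝ, 0 ≤ r → 2 ≤ T →
          MeasureTheory.volume {t : ℝ | 0 ≤ t ∧ t ≤ T ∧ ¬ Grows Λ (r / Real.log T) t} ≤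
            ENNReal.ofReal (C * Real.exp (-(c * r)) * T))) ∧
      ((∀ s : ℂ, Λ s = 0 → s.re = 1) ↔ ∀ t : ℝ, Grows Λ 0 t) := by
  intro a b N _ f w _ hf M _ G _ hco
  have hf' : Pool.Agent.W169.HF.IsForm N f w :=
    { one := hf.one
      real := hf.real
      mul := hf.mul
      pow := hf.pow
      sign := hf.sign
      fricke := hf.fricke
      good := hf.good
      bad := fun p hp hpN => by
        have h1 : (1 : ℝ) ≤ Real.sqrt p := by
          rw [Real.one_le_sqrt]
          exact_mod_cast hp.one_le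
        have h2 : ‖coef f p‖ ≤ 1 := by
          rcases hf.bad p hp hpN with h | h | h <;> simp [h]
        exact h2.trans h1 }
  obtain ⟨X, v, hP, hv, hX⟩ := Pool.Agent.R838.TW.pl_ab G hf' hco
  obtain ⟨Λ, h1, h2, h3, h4⟩ := Pool.Agent.R838.TW.exists_Lam hP 1 (G := Pool.Agent.W355.UN.prodE G f) hv (σ := 3 / 2)
    (fun s hs => by rw [Complex.ofReal_one]; exact hX s hs)
  have hκ : (1 : ℝ) / 2 ≤ Fintype.card G := by
    have h5 : (1 : ℝ) ≤ Fintype.card G := by exact_mod_cast (Fintype.card_pos : 0 < Fintype.card G)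
    linarith
  refine ⟨Λ, ⟨h1, h2⟩, fun Λ' h' => Pool.Agent.R838.TW.uniq h1 h'.1 ⟨3 / 2, h2⟩ ⟨3 / 2, h'.2⟩, ?_, fun c hc => ?_, ?_⟩
  · obtain ⟨W, hW, h7⟩ := h3
    refine ⟨W, hW, fun s => ?_⟩
    have h8 := h7 s
    rwa [Complex.ofReal_one, mul_one] at h8
  · obtain ⟨C1, hC1, k1⟩ := Pool.Agent.R838.TW.PL.off h4 hv h1 hc
    obtain ⟨C2, hC2, k2⟩ := Pool.Agent.R838.TW.PL.growth hκ h4 hv hc
    refine ⟨max C1 C2, lt_max_of_lt_left hC1, fun δ T hδ hT => ?_, fun r T hr hT => ?_⟩
    · obtain ⟨h3, h4⟩ := k1 δ T hδ hT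
      refine ⟨h3, h4.trans ?_⟩
      have hl : 0 ≤ Real.log T := Real.log_nonneg (by linarith)
      have hp : 0 ≤ T ^ (1 - c * δ) := Real.rpow_nonneg (by linarith) _
      exact mul_le_mul_of_nonneg_right (mul_le_mul_of_nonneg_right (le_max_left _ _) hp) hl
    · refine (k2 r T hr hT).trans (ENNReal.ofReal_le_ofReal ?_)
      have hT0 : (0 : ℝ) ≤ T := by linarith
      exact mul_le_mul_of_nonneg_right
        (mul_le_mul_of_nonneg_right (le_max_right _ _) (Real.exp_pos _).le) hT0
  · have k3 := Pool.Agent.R838.TW.PL.crit hκ h4 hv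
    unfold Grows
    rw [add_zero]
    exact k3

end Pool.Agent.Results.MP_fb225e_nt.ZeroDensityAbelian
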